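import Pool.Agent.Q266.RP.Stm4

set_option autoImplicit false

namespace Pool.Agent.Q266.RPB

open Pool.Agent.Q266.RP
open scoped commutatorElement

theorem clp : S_NCL → S_CLREG → S_CLP := by
  intro hncl hclreg p hp G _ hG a b
  obtain ⟨H, hH⟩ : ∃ H : Subgroup G, H = Subgroup.closure ({a, b * a * b⁻¹} : Set G) := ⟨_, rfl⟩
  rw [← hH]
  have ha : a ∈ H := hH ▸ Subgroup.subset_closure (by simp)
  have hc : b * a * b⁻¹ ∈ H := hH ▸ Subgroup.subset_closure (by simp)
  have htop : Subgroup.closure ({⟨a, ha⟩, ⟨b * a * b⁻¹, hc⟩} : Set H) = ⊤ := by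
    have h1 : ((↑) : H → G) ⁻¹' ({a, b * a * b⁻¹} : Set G) = {⟨a, ha⟩, ⟨b * a * b⁻¹, hc⟩} := by
      ext y
      simp [Subtype.ext_iff]
    rw [← h1]
    subst hH
    exact Subgroup.closure_closure_coe_preimage
  have hL : ∀ i, ((⊤ : Subgroup G).lowerCentralSeries i).Normal := fun i => inferInstance
  -- the commutator subgroup of `H` lies in the term 2
  have hbase : commutator H ≤ ((⊤ : Subgroup G).lowerCentralSeries 2).comap H.subtype := by
    refine hncl H ⟨a, ha⟩ ⟨b * a * b⁻¹, hc⟩ htop _ (fun g => ?_)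
    rw [Subgroup.mem_comap]
    show (g : G) * (a⁻¹ * (b * a * b⁻¹)⁻¹ * a * (b * a * b⁻¹)) * (g : G)⁻¹ ∈ _
    refine (hL 2).conj_mem _ ?_ _
    have hd : ⁅b, a⁆ ∈ (⊤ : Subgroup G).lowerCentralSeries 1 := by
      rw [Subgroup.lowerCentralSeries_succ]
      exact Subgroup.commutator_mem_commutator (by simp) (by simp)
    have he : ⁅(⁅b, a⁆)⁻¹, a⁆ ∈ (⊤ : Subgroup G).lowerCentralSeries 2 := by
      rw [Subgroup.lowerCentralSeries_succ]
      exact Subgroup.commutator_mem_commutator (Subgroup.inv_mem _ hd) (by simp)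
    have h1 : a⁻¹ * (b * a * b⁻¹)⁻¹ * a * (b * a * b⁻¹) =
        (a⁻¹ * a⁻¹) * ⁅(⁅b, a⁆)⁻¹, a⁆ * (a⁻¹ * a⁻¹)⁻¹ := by
      simp only [commutatorElement_def]
      group
    rw [h1]
    exact (hL 2).conj_mem _ he _
  have key : ∀ i, (⊤ : Subgroup H).lowerCentralSeries (i + 1) ≤
      ((⊤ : Subgroup G).lowerCentralSeries (i + 2)).comap H.subtype := by
    intro i
    induction i with
    | zero =>
      rw [zero_add, zero_add, Subgroup.top_lowerCentralSeries_one]
      exact hbase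
    | succ i ih =>
      rw [Subgroup.lowerCentralSeries_succ, Subgroup.commutator_le]
      intro x hx y _
      have h1 := ih hx
      rw [Subgroup.mem_comap] at h1 ⊢
      rw [map_commutatorElement]
      rw [show i + 1 + 2 = (i + 2) + 1 from rfl, Subgroup.lowerCentralSeries_succ]
      exact Subgroup.commutator_mem_commutator h1 (by simp)
  refine hclreg p H ?_
  have hp2 := hp.out.two_le
  obtain ⟨j, rfl⟩ : ∃ j, p = j + 2 := ⟨p - 2, by omega⟩
  have h2 := key j
  rw [hG] at h2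
  rw [show j + 2 - 1 = j + 1 from rfl, eq_bot_iff]
  intro y hy
  have h3 := h2 hy
  rw [Subgroup.mem_comap, Subgroup.mem_bot] at h3
  rw [Subgroup.mem_bot]
  exact Subtype.ext h3

end Pool.Agent.Q266.RPB
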