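import Pool.Agent.Q266.RP.Stm3

/-! Project RP (helper266): the general bound for characters of degree `p ^ (k + 2)`. -/

set_option autoImplicit false

namespace Pool.Agent.Q266.RPB

open Pool.Agent.Q266.RP Module

/-- For `p` odd and `χ(1) = p ^ (k + 2)`: `o(x) χ(1) ^ 2` divides `p ^ k |P|`. -/
def S_GEN : Prop :=
  ∀ (p : ℕ) [Fact p.Prime], p ≠ 2 → ∀ (P V : Type) [Group P] [Finite P] [AddCommGroup V]
    [Module ℂ V] [FiniteDimensional ℂ V] (ρ : Representation ℂ P V), IsPGroup p P → Irr ρ →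
    ∀ (k : ℕ), finrank ℂ V = p ^ (k + 2) → ∀ x : P, LinearMap.trace ℂ V (ρ x) ≠ 0 →
    orderOf x * (finrank ℂ V) ^ 2 ∣ p ^ k * Nat.card P

theorem gen : S_ODDPAIR → S_STEPB → S_SCHUR → S_DESC → S_ORD → S_DEGB → S_GEN := by
  intro hOdd hStep hSchur hDesc hOrd hDegb
  have key : ∀ n : ℕ, ∀ (p : ℕ) [Fact p.Prime], p ≠ 2 → ∀ (P V : Type) [Group P] [Finite P]
      [AddCommGroup V] [Module ℂ V] [FiniteDimensional ℂ V] (ρ : Representation ℂ P V),
      Nat.card P = n → IsPGroup p P → Irr ρ → ∀ (k : ℕ), finrank ℂ V = p ^ (k + 2) →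
      ∀ x : P, LinearMap.trace ℂ V (ρ x) ≠ 0 →
      orderOf x * (finrank ℂ V) ^ 2 ∣ p ^ k * Nat.card P := by
    intro n
    induction n using Nat.strong_induction_on with
    | _ n ih =>
    intro p hp hp2 P V _ _ _ _ _ ρ hn hP hIrr k hk x hx
    rcases Nat.eq_zero_or_pos k with hk0 | hk0
    · subst hk0
      simpa using hDegb p hp2 P V ρ hP hIrr (by simpa using hk) x hx
    obtain ⟨j, rfl⟩ : ∃ j, k = j + 1 := ⟨k - 1, by omega⟩
    by_cases hker : ∀ g, ρ g = 1 → g = 1
    · have hcen : CenSmall p P := hSchur.2.1 p P V ρ hIrr hker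
      by_cases hcomm : ∀ a b : P, a * b = b * a
      · have hd := hSchur.2.2 P V ρ hIrr hcomm
        exfalso
        rw [hd] at hk
        have : 1 < p ^ (j + 1 + 2) := Nat.one_lt_pow (by omega) hp.out.one_lt
        omega
      · obtain ⟨e, z, hez⟩ := hOdd p hp2 P hP hcen hcomm
        have hep : e ^ p = 1 := hez.1
        have hec : e ∉ Subgroup.center P := hez.2.1
        have hzc : z ∈ Subgroup.center P := hez.2.2.1
        have hzo : orderOf z = p := hez.2.2.2.1
        obtain ⟨ω, hω⟩ := hSchur.1 P V ρ hIrr z hzc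
        have hω1 : ω ≠ 1 := by
          intro h
          have h1 : z = 1 := hker z (by
            ext v
            rw [hω, h, one_smul]
            rfl)
          rw [h1, orderOf_one] at hzo
          exact hp.out.one_lt.ne hzo
        obtain ⟨hxC, m, hu, hN, W, σ, hσ, hfr, hres, htr, hcd⟩ :=
          hStep p P V ρ hIrr e z hez ω hω hω1 x hx
        set C : Subgroup P := Subgroup.centralizer ({e} : Set P) with hC
        have hQP : IsPGroup p (C ⧸ Subgroup.zpowers (⟨e * z ^ m, hu⟩ : C)) :=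
          (hP.to_subgroup C).to_quotient _
        have hpos : 0 < Nat.card (C ⧸ Subgroup.zpowers (⟨e * z ^ m, hu⟩ : C)) := Nat.card_pos
        have hp2' : 1 < p ^ 2 := Nat.one_lt_pow (by norm_num) hp.out.one_lt
        have hlt : Nat.card (C ⧸ Subgroup.zpowers (⟨e * z ^ m, hu⟩ : C)) < n := by
          rw [← hn, hcd]
          nlinarith
        have hWk : finrank ℂ W = p ^ (j + 2) := by
          rw [hfr] at hk
          have h1 : p ^ (j + 1 + 2) = p * p ^ (j + 2) := by ring
          rw [h1] at hk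
          exact Nat.eq_of_mul_eq_mul_left hp.out.pos hk
        have hih := ih _ hlt p hp2 (C ⧸ Subgroup.zpowers (⟨e * z ^ m, hu⟩ : C)) W σ rfl hQP hσ
          j hWk (QuotientGroup.mk ⟨x, hxC⟩) htr
        -- the order of `u` divides `p`
        have hzm : z ^ m ∈ Subgroup.center P := Subgroup.pow_mem _ hzc m
        have hcomz : Commute e (z ^ m) := (Subgroup.mem_center_iff.1 hzm e)
        have hup : (e * z ^ m) ^ p = 1 := by
          rw [hcomz.mul_pow, hep, one_mul, ← pow_mul, mul_comm, pow_mul, ← hzo,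
            pow_orderOf_eq_one, one_pow]
        have hNc : Nat.card (Subgroup.zpowers (⟨e * z ^ m, hu⟩ : C)) ∣ p := by
          rw [Nat.card_zpowers, orderOf_dvd_iff_pow_eq_one]
          exact Subtype.ext hup
        have ho := hOrd.1 C (Subgroup.zpowers (⟨e * z ^ m, hu⟩ : C)) ⟨x, hxC⟩
        rw [Subgroup.orderOf_mk] at ho
        have ho2 := ho.trans (Nat.mul_dvd_mul_left _ hNc)
        rw [hfr, hcd]
        set O := orderOf (QuotientGroup.mk (⟨x, hxC⟩ : C) :
          C ⧸ Subgroup.zpowers (⟨e * z ^ m, hu⟩ : C)) with hO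
        refine (Nat.mul_dvd_mul_right ho2 _).trans ?_
        have h3 : O * p * (p * finrank ℂ W) ^ 2 =
            p ^ 3 * (O * finrank ℂ W ^ 2) := by ring
        have h4 : p ^ (j + 1) * (p ^ 2 * Nat.card (C ⧸ Subgroup.zpowers (⟨e * z ^ m, hu⟩ : C))) =
            p ^ 3 * (p ^ j * Nat.card (C ⧸ Subgroup.zpowers (⟨e * z ^ m, hu⟩ : C))) := by ring
        rw [h3, h4]
        exact Nat.mul_dvd_mul_left _ hih
    · push Not at hker
      obtain ⟨g, hg1, hg2⟩ := hker
      obtain ⟨σ, hσ, hσ2⟩ := hDesc.2 P V ρ (MonoidHom.ker ρ) hIrr (fun n hn => hn)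
      have hQP : IsPGroup p (P ⧸ MonoidHom.ker ρ) := hP.to_quotient _
      have hcd : Nat.card P = Nat.card (P ⧸ MonoidHom.ker ρ) * Nat.card (MonoidHom.ker ρ) :=
        Subgroup.card_eq_card_quotient_mul_card_subgroup _
      have hpos : 0 < Nat.card (P ⧸ MonoidHom.ker ρ) := Nat.card_pos
      have hk : 1 < Nat.card (MonoidHom.ker ρ) := by
        rw [Finite.one_lt_card_iff_nontrivial]
        exact ⟨⟨⟨g, hg1⟩, 1, fun h => hg2 (congrArg Subtype.val h)⟩⟩
      have hlt : Nat.card (P ⧸ MonoidHom.ker ρ) < n := by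
        rw [← hn, hcd]
        nlinarith
      have hih := ih _ hlt p hp2 (P ⧸ MonoidHom.ker ρ) V σ rfl hQP hσ
        (j + 1) (by assumption) (QuotientGroup.mk x) (by rw [hσ2]; exact hx)
      have ho := hOrd.1 P (MonoidHom.ker ρ) x
      rw [hcd]
      refine dvd_trans (Nat.mul_dvd_mul_right ho _) ?_
      have h3 : orderOf (QuotientGroup.mk x : P ⧸ MonoidHom.ker ρ) *
          Nat.card (MonoidHom.ker ρ) * finrank ℂ V ^ 2 =
          orderOf (QuotientGroup.mk x : P ⧸ MonoidHom.ker ρ) * finrank ℂ V ^ 2 *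
          Nat.card (MonoidHom.ker ρ) := by ring
      rw [h3, ← mul_assoc]
      exact Nat.mul_dvd_mul_right hih _
  intro p hp hp2 P V _ _ _ _ _ ρ hP hIrr k hk x hx
  exact key _ p hp2 P V ρ rfl hP hIrr k hk x hx

end Pool.Agent.Q266.RPB
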