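import Pool.Agent.Q277.RP.SUB
import Pool.Agent.Q83.RP.Prop
import Pool.Agent.Q109.RP.Ncl
import Pool.Agent.Q18.RP.Fone
import Pool.Agent.Q181.RP.Fall
import Pool.Agent.Q194.RP.Cyc
import Pool.Agent.Q204.RP.Cardc
import Pool.Agent.Q53.RP.Ord
import Pool.Agent.Q139.RP.Schur
import Pool.Agent.Q259.RP.Trz
import Pool.Agent.Q21.RP.Desc
import Pool.Agent.Q295.RP.Eig
import Pool.Agent.Q231.RP.FILC
import Pool.Agent.Q222.RP.Lei
import Pool.Agent.Q192.RP.Psp
import Pool.Agent.Q178.RP.Clreg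
import Pool.Agent.Q222.RPB.Npair
import Pool.Agent.Q121.RPB.Omx
import Pool.Agent.Q139.RPB.Cycp
import Pool.Agent.Q224.RPB.Oddpair
import Pool.Agent.Q176.RPB.Stepb
import Pool.Agent.Q65.RPB.Div
import Pool.Agent.Q160.RPB.Scal
import Pool.Agent.Q231.RPB.Qp
import Pool.Agent.Q76.RPB.Ordtwo
import Pool.Agent.Q113.RPB.Dega
import Pool.Agent.Q223.RPB.Bp
import Pool.Agent.Q252.RPB.Degb
import Pool.Agent.Q266.RPB.Gen

/-!
Project RP (helper266), MP_6bdd40_al: the lemmas of the second round put together.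
-/

set_option autoImplicit false

namespace Pool.Agent.Q266.RPB

open Pool.Agent.Q266.RP Module

theorem f_schur : S_SCHUR := Pool.Agent.Q139.RP.schur
theorem f_desc : S_DESC := Pool.Agent.Q21.RP.desc
theorem f_trz : S_TRZ := Pool.Agent.Q259.RP.trz
theorem f_ord : S_ORD := Pool.Agent.Q53.RP.ord
theorem f_fall : S_FALL :=
  Pool.Agent.Q181.RP.fall Pool.Agent.Q277.RP.sub
    (Pool.Agent.Q18.RP.fone Pool.Agent.Q277.RP.sub Pool.Agent.Q83.RP.prop Pool.Agent.Q109.RP.ncl)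
theorem f_clreg : S_CLREG :=
  Pool.Agent.Q178.RP.clreg Pool.Agent.Q231.RP.FILC.filc
    (Pool.Agent.Q222.RP.lei Pool.Agent.Q231.RP.FILC.filc)
    (Pool.Agent.Q192.RP.psp Pool.Agent.Q231.RP.FILC.filc)
theorem f_stepb : S_STEPB :=
  Pool.Agent.Q176.RPB.stepb f_desc Pool.Agent.Q295.RP.eig f_trz Pool.Agent.Q204.RP.cardc
theorem f_odd : S_ODDPAIR :=
  Pool.Agent.Q224.RPB.oddpair Pool.Agent.Q222.RPB.npair
    (Pool.Agent.Q121.RPB.omx Pool.Agent.Q222.RPB.npair)
    Pool.Agent.Q139.RPB.cycp Pool.Agent.Q194.RP.cyc f_fall f_clreg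
theorem f_div : S_DIV := Pool.Agent.Q65.RPB.div f_odd f_stepb f_schur f_desc
theorem f_scal : S_SCAL := Pool.Agent.Q160.RPB.scal f_odd f_stepb f_schur f_desc f_ord
theorem f_qp : S_QP := Pool.Agent.Q231.RPB.qp f_odd f_stepb f_schur f_desc f_trz f_div
theorem f_ordtwo : S_ORDTWO := Pool.Agent.Q76.RPB.ordtwo f_div f_qp f_scal f_desc
theorem f_dega : S_DEGA := Pool.Agent.Q113.RPB.dega f_odd f_stepb f_schur f_desc f_ord
theorem f_bp : S_BP := Pool.Agent.Q223.RPB.bp f_odd f_stepb f_schur f_trz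
theorem f_degb : S_DEGB := Pool.Agent.Q252.RPB.degb f_odd f_stepb f_schur f_desc f_ord f_dega f_bp
theorem f_gen : S_GEN := gen f_odd f_stepb f_schur f_desc f_ord f_degb

/-- the case `|P| = p * d ^ 2` -/
theorem qone (p : ℕ) [Fact p.Prime] (hp : p ≠ 2) (P V : Type) [Group P] [Finite P]
    [AddCommGroup V] [Module ℂ V] [FiniteDimensional ℂ V] (ρ : Representation ℂ P V)
    (hP : IsPGroup p P) (hρ : Irr ρ) (x : P) (htr : LinearMap.trace ℂ V (ρ x) ≠ 0)
    (hq : Nat.card P = p * (finrank ℂ V) ^ 2) :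
    orderOf x * (finrank ℂ V) ^ 2 ∣ Nat.card P := by
  have hpr : p.Prime := Fact.out
  have hdiv := f_div p hp P V ρ hP hρ
  have hpos : 0 < Nat.card P := Nat.card_pos
  have hp1 : 1 < p := hpr.one_lt
  obtain ⟨c, hc⟩ := f_qp p hp P V ρ hP hρ hq x htr
  by_cases hc1 : c = 1
  · by_cases hx1 : x = 1
    · rw [hx1, orderOf_one, one_mul]
      exact hdiv.1
    · have hker : ∀ m ∈ MonoidHom.ker ρ, ρ m = 1 := fun m hm => hm
      have hxN : x ∈ MonoidHom.ker ρ := by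
        rw [MonoidHom.mem_ker]
        ext v
        rw [hc v, hc1, one_smul]
        rfl
      obtain ⟨σ, hσ, -⟩ := f_desc.2 P V ρ (MonoidHom.ker ρ) hρ hker
      have hQ : IsPGroup p (P ⧸ MonoidHom.ker ρ) := hP.to_quotient _
      have hd := f_div p hp (P ⧸ MonoidHom.ker ρ) V σ hQ hσ
      have hcard := Subgroup.card_eq_card_quotient_mul_card_subgroup (MonoidHom.ker ρ)
      have hNpos : 1 < Nat.card (MonoidHom.ker ρ) := by
        have : Nontrivial (MonoidHom.ker ρ) :=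
          ⟨⟨x, hxN⟩, 1, fun h => hx1 (congrArg Subtype.val h)⟩
        exact Finite.one_lt_card
      have hQpos : 0 < Nat.card (P ⧸ MonoidHom.ker ρ) := Nat.card_pos
      have hQtriv : ¬ Nontrivial (P ⧸ MonoidHom.ker ρ) := by
        intro h
        have h1 := Nat.le_of_dvd hQpos (hd.2 h)
        rw [← hq, hcard] at h1
        have h2 : Nat.card (P ⧸ MonoidHom.ker ρ) * 2 ≤
            Nat.card (P ⧸ MonoidHom.ker ρ) * Nat.card (MonoidHom.ker ρ) :=
          Nat.mul_le_mul_left _ hNpos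
        omega
      have hone : Nat.card (P ⧸ MonoidHom.ker ρ) = 1 := by
        have : Subsingleton (P ⧸ MonoidHom.ker ρ) := not_nontrivial_iff_subsingleton.1 hQtriv
        exact Nat.card_unique
      have hd1 : finrank ℂ V ^ 2 = 1 := by
        have := hd.1
        rw [hone] at this
        exact Nat.dvd_one.1 this
      rw [hd1, mul_one]
      exact orderOf_dvd_natCard x
  · exact f_scal p hp P V ρ hP hρ x htr ⟨1, c, hc1, fun v => by rw [pow_one]; exact hc v⟩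

/-- `d = p ^ n` -/
theorem deg_pow (p : ℕ) [Fact p.Prime] (hp : p ≠ 2) (P V : Type) [Group P] [Finite P]
    [AddCommGroup V] [Module ℂ V] [FiniteDimensional ℂ V] (ρ : Representation ℂ P V)
    (hP : IsPGroup p P) (hρ : Irr ρ) : ∃ n, finrank ℂ V = p ^ n := by
  have hd := (f_div p hp P V ρ hP hρ).1
  obtain ⟨N, hN⟩ := (IsPGroup.iff_card (G := P)).1 hP
  obtain ⟨n, -, hn⟩ := (Nat.dvd_prime_pow (Fact.out : p.Prime)).1
    ((Dvd.intro_left (finrank ℂ V) (by rw [sq])).trans (hN ▸ hd) : finrank ℂ V ∣ p ^ N)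
  exact ⟨n, hn⟩

end Pool.Agent.Q266.RPB
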